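import Pool.Agent.Lib.MP_4c698b_pr.Main
import Pool.Agent.Lib.MP_4c698b_pr.O7
import Pool.Agent.Lib.MP_4c698b_pr.P1
import Pool.Agent.Lib.MP_4c698b_pr.P2

namespace Pool.Agent.Results.MP_4c698b_pr.EveryNonamenable

open MeasureTheory IICErg

/-- Every finite symmetric generating set `S₀` of a nonamenable group is contained in a finite
symmetric generating set `S` such that every incipient infinite cluster of the Cayley graph of `S`
is ergodic. (Nonamenability is stated as a positive isoperimetric constant `h` of the Cayley graph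
of `S₀`.) -/
theorem result : ∀ (Γ : Type) [Group Γ] (S₀ : GenSet Γ) (h : ℝ), 0 < h →
    (∀ K : Finset Γ, h * K.card ≤ eb S₀ K) →
    ∃ S : GenSet Γ, S₀.S ⊆ S.S ∧ ∀ A : Measure (RGraph S.S.card), IsIIC S A → Ergodic A := by
  intro Γ _ S₀ h h0 hexp
  obtain ⟨a, ha, hA⟩ := cheeger_norm S₀ h h0 hexp
  obtain ⟨S, b, hS, hb, h2⟩ := exists_small S₀ a ha hA
  exact ⟨S, hS, fun A hA => iic_ergodic S (l2_small S b hb h2) A hA⟩

end Pool.Agent.Results.MP_4c698b_pr.EveryNonamenable
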