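import Pool.Agent.Lib.MP_4c698b_pr.Main

namespace Pool.Agent.Results.MP_4c698b_pr.L2Ergodic

open MeasureTheory IICErg

/-- If the critical two-point function of a Cayley graph is bounded as an operator on `ℓ²`, then
every incipient infinite cluster of the graph is ergodic. -/
theorem result : ∀ (Γ : Type) [Group Γ] (S : GenSet Γ), L2Bounded S (pc S) →
    ∀ A : Measure (RGraph S.S.card), IsIIC S A → Ergodic A :=
  fun _ _ S hL2 A hA => iic_ergodic S hL2 A hA

end Pool.Agent.Results.MP_4c698b_pr.L2Ergodic
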