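import Pool.Agent.Lib.MP_4c698b_pr.E.FinE

namespace Pool.Agent.Results.MP_4c698b_pr.ManyEnds

open MeasureTheory IICErg IICErg.Ends

/-- If a Cayley graph has more than two ends (the complement of some finite set of vertices has at
least three infinite connected components), then every incipient infinite cluster of it is
ergodic. -/
theorem result : ∀ (Γ : Type) [Group Γ] (S : GenSet Γ), ManyEnds S →
    ∀ A : Measure (RGraph S.S.card), IsIIC S A → Ergodic A :=
  fun _ _ S hS A hA => ergodic_ends S hS A hA

end Pool.Agent.Results.MP_4c698b_pr.ManyEnds
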