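import Pool.Agent.Lib.MP_4c698b_pr.Main
import Pool.Agent.Lib.MP_4c698b_pr.O7

namespace Pool.Agent.Results.MP_4c698b_pr.SmallNorm

open MeasureTheory IICErg

/-- Suppose that the adjacency operator of the Cayley graph has norm at most `a` on `ℓ²`, that every
finite set `K` has at least `h |K|` boundary edges, `h > 0`, and `a < 1 + h`. Then every incipient
infinite cluster of the graph is ergodic. (One can always take `h = d - a`, `d` the degree, so this
holds if `2 a < d + 1`, for example if the spectral radius `a / d` is at most `1/2`.) -/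
theorem result : ∀ (Γ : Type) [Group Γ] (S : GenSet Γ) (a : NNReal) (h : ℝ), AdjNormLe S a →
    0 < h → (∀ K : Finset Γ, h * K.card ≤ eb S K) → (a : ℝ) < 1 + h →
    ∀ A : Measure (RGraph S.S.card), IsIIC S A → Ergodic A := by
  intro Γ _ S a h ha h0 hexp hah A hA
  refine iic_ergodic S (l2_of_norm S (pc S) a ha ?_) A hA
  have h1 := pc_le S h h0 hexp
  calc (pc S : ℝ) * a ≤ 1 / (1 + h) * a := mul_le_mul_of_nonneg_right h1 a.2
    _ = a / (1 + h) := by ring
    _ < 1 := by rw [div_lt_one (by linarith)]; exact hah

end Pool.Agent.Results.MP_4c698b_pr.SmallNorm
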